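import Pool.Agent.X108.TU.Main

/-!
# MP_ff1a2a_nt: no Dirichlet character has Turán's property (T)

For every Dirichlet character `χ` modulo `k` and every real `C`, for all large `N` the partial sum
`S_N(s, χ) = ∑_{n ≤ N} χ(n) n^{-s}` has zeros with `Re s > 1 + C / log N` (at all heights). So no
character has property (T), and the implication asked for in Q1 holds for every character.
-/

set_option autoImplicit false

namespace Pool.Agent.Results.MP_ff1a2a_nt.PartialSumZeros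

open Filter

/-- `S_N(s, χ) = ∑_{n ≤ N} χ(n) n^{-s}`. -/
noncomputable def S {k : ℕ} (χ : DirichletCharacter ℂ k) (N : ℕ) (s : ℂ) : ℂ :=
  ∑ n ∈ Finset.Icc 1 N, χ (n : ZMod k) * (n : ℂ) ^ (-s)

/-- Property (T): `S_N(s, χ) ≠ 0` for every `N ≥ 1` and every `s` with `Re s > 1`. -/
def PropertyT {k : ℕ} (χ : DirichletCharacter ℂ k) : Prop :=
  ∀ N : ℕ, 1 ≤ N → ∀ s : ℂ, 1 < s.re → S χ N s ≠ 0

/-- (1) For every modulus `k` and every real `C` there is `N₀` such that for all `N ≥ N₀` and all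
Dirichlet characters `χ` modulo `k` the partial sum `S_N(s, χ)` has zeros with
`Re s > 1 + C / log N` and arbitrarily large imaginary part. (2) No Dirichlet character has property
(T). (3) The statement of Q1: if `χ` has property (T), then `L(s, χ) ≠ 0` for `Re s > 1/2`. -/
theorem result :
    (∀ (k : ℕ) [NeZero k] (C : ℝ), ∃ N₀ : ℕ, ∀ N : ℕ, N₀ ≤ N → ∀ (χ : DirichletCharacter ℂ k) (T : ℝ),
      ∃ s : ℂ, 1 + C / Real.log N < s.re ∧ T < s.im ∧ S χ N s = 0) ∧
    (∀ (k : ℕ) [NeZero k] (χ : DirichletCharacter ℂ k), ¬ PropertyT χ) ∧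
    (∀ (k : ℕ) [NeZero k] (χ : DirichletCharacter ℂ k), PropertyT χ →
      ∀ s : ℂ, 1 / 2 < s.re → DirichletCharacter.LFunction χ s ≠ 0) := by
  have h1 : ∀ (k : ℕ) [NeZero k] (C : ℝ), ∃ N₀ : ℕ, ∀ N : ℕ, N₀ ≤ N →
      ∀ (χ : DirichletCharacter ℂ k) (T : ℝ),
      ∃ s : ℂ, 1 + C / Real.log N < s.re ∧ T < s.im ∧ S χ N s = 0 := by
    intro k _ C
    have h : ∀ᶠ N : ℕ in atTop, ∀ (χ : DirichletCharacter ℂ k), ∀ T : ℝ,
        ∃ s : ℂ, 1 + C / Real.log N < s.re ∧ T < s.im ∧ S χ N s = 0 :=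
      Filter.eventually_all.2 fun χ => X108.TU.main χ C
    obtain ⟨N₀, h⟩ := eventually_atTop.1 h
    exact ⟨N₀, fun N hN χ T => h N hN χ T⟩
  have h2 : ∀ (k : ℕ) [NeZero k] (χ : DirichletCharacter ℂ k), ¬ PropertyT χ := by
    intro k _ χ hT
    obtain ⟨N₀, h⟩ := h1 k 0
    obtain ⟨s, hs, _, h0⟩ := h (max N₀ 1) (le_max_left _ _) χ 0
    rw [zero_div, add_zero] at hs
    exact hT (max N₀ 1) (le_max_right _ _) s hs h0
  exact ⟨h1, h2, fun k _ χ hT => absurd hT (h2 k χ)⟩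

end Pool.Agent.Results.MP_ff1a2a_nt.PartialSumZeros
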